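import Mathlib
import Pool.Agent.Results.MP_e8ee11_co.SparseBeckFiala

/-!
# Random subsets of the neighbourhoods in the hypercube: the discrepancy is of order `√n`

Upper bound (for all choices of the subsets): the theorem
`Pool.Agent.Results.MP_e8ee11_co.SparseBeckFiala`.
Lower bound (for almost all choices): for a fixed colouring and a fixed vertex the number of subsets
of the neighbourhood with a given sum is a binomial coefficient `n choose j`; union bound over the
colourings.
-/

set_option autoImplicit false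

open Finset

namespace Pool.Agent.Results.MP_3166d6_co.SqrtOrder

/-- the vertices of the `n`-dimensional hypercube -/
abbrev Cube (n : ℕ) : Type := Fin n → Bool

/-- the neighbours of `v`: the vertices which differ from `v` in exactly one coordinate -/
def nbr {n : ℕ} (v : Cube n) : Finset (Cube n) :=
  univ.filter (fun u => (univ.filter (fun i => u i ≠ v i)).card = 1)

/-- The sample space: all families of subsets `S v ⊆ nbr v`. -/
abbrev Fam (n : ℕ) : Type := (v : Cube n) → {T : Finset (Cube n) // T ⊆ nbr v}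

/-- `S` has a colouring in which all sums are at most `K` in absolute value. -/
def DiscLE {n : ℕ} (S : Cube n → Finset (Cube n)) (K : ℕ) : Prop :=
  ∃ χ : Cube n → ℤ, (∀ x, χ x = 1 ∨ χ x = -1) ∧ ∀ v, |∑ x ∈ S v, χ x| ≤ K

/-- the discrepancy of the family `S` -/
noncomputable def disc {n : ℕ} (S : Cube n → Finset (Cube n)) : ℕ := sInf {K | DiscLE S K}

/-- The probability that the discrepancy of the random family satisfies `P`: the proportion of the
families with this property in `Fam n`. -/
noncomputable def prob (n : ℕ) (P : ℕ → Prop) : ℝ :=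
  (Nat.card {S : Fam n // P (disc (fun v => (S v).1))} : ℝ) / Nat.card (Fam n)

/-! ### The neighbourhoods -/

theorem nbr_eq {n : ℕ} (v : Cube n) :
    nbr v = univ.image (fun i => Function.update v i (!(v i))) := by
  ext u
  simp only [nbr, mem_filter, mem_univ, true_and, mem_image]
  constructor
  · intro h
    obtain ⟨i, hi⟩ := Finset.card_eq_one.1 h
    refine ⟨i, ?_⟩
    funext j
    by_cases hj : j = i
    · subst hj
      have : j ∈ univ.filter (fun i => u i ≠ v i) := by rw [hi]; exact mem_singleton_self _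
      simp only [mem_filter, mem_univ, true_and] at this
      rw [Function.update_self]
      cases h1 : u j <;> cases h2 : v j <;> simp_all
    · have : j ∉ univ.filter (fun i => u i ≠ v i) := by
        rw [hi]; simpa using hj
      simp only [mem_filter, mem_univ, true_and, not_not] at this
      rw [Function.update_of_ne hj, this]
  · rintro ⟨i, rfl⟩
    rw [Finset.card_eq_one]
    refine ⟨i, ?_⟩
    ext j
    simp only [mem_filter, mem_univ, true_and, mem_singleton]
    by_cases hj : j = i
    · subst hj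
      simp
    · simp [hj]

theorem card_nbr {n : ℕ} (v : Cube n) : (nbr v).card = n := by
  rw [nbr_eq, Finset.card_image_of_injective, Finset.card_univ, Fintype.card_fin]
  intro i j hij
  by_contra hne
  have := congrFun hij i
  simp only [Function.update_self, Function.update_of_ne hne] at this
  cases h : v i <;> simp [h] at this

theorem nbr_symm {n : ℕ} {u v : Cube n} (h : u ∈ nbr v) : v ∈ nbr u := by
  simp only [nbr, mem_filter, mem_univ, true_and] at h ⊢
  rw [← h]
  congr 1
  ext i
  simp only [mem_filter, mem_univ, true_and]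
  exact ⟨fun h => h.symm, fun h => h.symm⟩

/-! ### The upper bound -/

theorem upper : ∃ C : ℝ, 0 < C ∧ ∀ (n : ℕ) (S : Cube n → Finset (Cube n)), (∀ v, S v ⊆ nbr v) →
    (disc S : ℝ) ≤ C * Real.sqrt n := by
  classical
  obtain ⟨C, hC, h⟩ := Pool.Agent.Results.MP_e8ee11_co.SparseBeckFiala.result
  refine ⟨C * Real.sqrt 3, by positivity, ?_⟩
  intro n S hS
  obtain ⟨χ, h1, h2⟩ : ∃ χ : Cube n → ℤ, (∀ x, χ x = 1 ∨ χ x = -1) ∧
      ∀ v, ((|∑ x ∈ S v, χ x| : ℤ) : ℝ) ≤ C * Real.sqrt 3 * Real.sqrt n := by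
    set e := Fintype.equivFin (Cube n) with he
    have hd : ∀ i : Fin (Fintype.card (Cube n)),
        (univ.filter (fun j : Fin (Fintype.card (Cube n)) =>
          i ∈ (S (e.symm j)).map e.toEmbedding)).card ≤ n := by
      intro i
      calc _ ≤ ((nbr (e.symm i)).map e.toEmbedding).card := by
            refine Finset.card_le_card fun j hj => ?_
            simp only [mem_filter, mem_univ, true_and, mem_map_equiv] at hj
            rw [mem_map_equiv]
            exact nbr_symm (hS _ hj)
        _ = n := by rw [Finset.card_map, card_nbr]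
    have hk : ∀ j : Fin (Fintype.card (Cube n)),
        ((S (e.symm j)).map e.toEmbedding).card ≤ n := by
      intro j
      rw [Finset.card_map]
      exact (Finset.card_le_card (hS _)).trans (card_nbr _).le
    obtain ⟨χ, h1, h2⟩ := h _ _ n n (fun j => (S (e.symm j)).map e.toEmbedding) hd hk
    refine ⟨fun x => χ (e x), fun x => h1 _, fun v => ?_⟩
    have h3 := h2 (e v)
    rw [Finset.sum_map, Finset.card_map] at h3
    simp only [Equiv.symm_apply_apply, Equiv.coe_toEmbedding] at h3
    refine h3.trans ?_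
    rw [mul_assoc]
    refine mul_le_mul_of_nonneg_left ?_ hC.le
    rw [← Real.sqrt_mul (by norm_num)]
    refine Real.sqrt_le_sqrt ?_
    have h4 : ((S v).card : ℝ) ≤ n := by
      exact_mod_cast (Finset.card_le_card (hS _)).trans (card_nbr _).le
    have h5 : (n : ℝ) ^ (2 / 3 : ℝ) ≤ n := by
      rcases Nat.eq_zero_or_pos n with h0 | h0
      · rw [h0]; simp
      · have h6 : (1 : ℝ) ≤ n := by exact_mod_cast h0
        calc (n : ℝ) ^ (2 / 3 : ℝ) ≤ (n : ℝ) ^ (1 : ℝ) :=
              Real.rpow_le_rpow_of_exponent_le h6 (by norm_num)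
          _ = n := Real.rpow_one _
    linarith
  have hb : 0 ≤ C * Real.sqrt 3 * Real.sqrt n := by positivity
  have h3 : DiscLE S ⌊C * Real.sqrt 3 * Real.sqrt n⌋₊ := by
    refine ⟨χ, h1, fun v => ?_⟩
    have h4 := h2 v
    have h5 : ((|∑ x ∈ S v, χ x|).toNat : ℝ) ≤ C * Real.sqrt 3 * Real.sqrt n := by
      have : (((|∑ x ∈ S v, χ x|).toNat : ℤ) : ℝ) ≤ C * Real.sqrt 3 * Real.sqrt n := by
        rw [Int.toNat_of_nonneg (abs_nonneg _)]
        exact h4
      rwa [Int.cast_natCast] at this
    have h6 := Nat.le_floor h5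
    have h7 : |∑ x ∈ S v, χ x| = ((|∑ x ∈ S v, χ x|).toNat : ℤ) :=
      (Int.toNat_of_nonneg (abs_nonneg _)).symm
    rw [h7]
    exact_mod_cast h6
  calc (disc S : ℝ) ≤ (⌊C * Real.sqrt 3 * Real.sqrt n⌋₊ : ℝ) := by
        exact_mod_cast Nat.sInf_le h3
    _ ≤ C * Real.sqrt 3 * Real.sqrt n := Nat.floor_le hb

/-! ### Central binomial coefficients -/

theorem central (m : ℕ) : (Nat.centralBinom m) ^ 2 * (3 * m + 1) ≤ 16 ^ m := by
  induction m with
  | zero => simp [Nat.centralBinom]
  | succ m ih =>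
    have h := Nat.succ_mul_centralBinom_succ m
    have h1 : ((m + 1) ^ 2 * (3 * m + 1)) *
        ((Nat.centralBinom (m + 1)) ^ 2 * (3 * (m + 1) + 1)) ≤
        ((m + 1) ^ 2 * (3 * m + 1)) * 16 ^ (m + 1) := by
      calc ((m + 1) ^ 2 * (3 * m + 1)) * ((Nat.centralBinom (m + 1)) ^ 2 * (3 * (m + 1) + 1))
          = ((m + 1) * Nat.centralBinom (m + 1)) ^ 2 * ((3 * m + 1) * (3 * (m + 1) + 1)) := by ring
        _ = (2 * (2 * m + 1) * Nat.centralBinom m) ^ 2 * ((3 * m + 1) * (3 * (m + 1) + 1)) := by
            rw [h]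
        _ = (Nat.centralBinom m ^ 2 * (3 * m + 1)) * (4 * (2 * m + 1) ^ 2 * (3 * m + 4)) := by ring
        _ ≤ 16 ^ m * (4 * (2 * m + 1) ^ 2 * (3 * m + 4)) := Nat.mul_le_mul_right _ ih
        _ ≤ 16 ^ m * (16 * ((m + 1) ^ 2 * (3 * m + 1))) := by
            refine Nat.mul_le_mul_left _ ?_
            nlinarith
        _ = ((m + 1) ^ 2 * (3 * m + 1)) * 16 ^ (m + 1) := by ring
    exact Nat.le_of_mul_le_mul_left h1 (by positivity)

theorem choose_half (n : ℕ) : (n.choose (n / 2)) ^ 2 * n ≤ (2 ^ n) ^ 2 := by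
  rcases Nat.even_or_odd' n with ⟨m, rfl | rfl⟩
  · have h := central m
    rw [Nat.centralBinom_eq_two_mul_choose] at h
    rw [Nat.mul_div_cancel_left _ (by norm_num : 0 < 2)]
    calc ((2 * m).choose m) ^ 2 * (2 * m) ≤ ((2 * m).choose m) ^ 2 * (3 * m + 1) := by
          refine Nat.mul_le_mul_left _ (by omega)
      _ ≤ 16 ^ m := h
      _ = (2 ^ (2 * m)) ^ 2 := by rw [← pow_mul, show 2 * m * 2 = 4 * m by ring, pow_mul]; norm_num
  · have h := central (m + 1)
    rw [Nat.centralBinom_eq_two_mul_choose] at h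
    have h1 : (2 * m + 1) / 2 = m := by omega
    rw [h1]
    have h2 : (2 * (m + 1)).choose (m + 1) = 2 * (2 * m + 1).choose m := by
      rw [show 2 * (m + 1) = (2 * m + 1) + 1 by ring, Nat.choose_succ_succ]
      have : (2 * m + 1).choose (m + 1) = (2 * m + 1).choose m := by
        rw [← Nat.choose_symm_of_eq_add (show 2 * m + 1 = m + (m + 1) by ring)]
      simp only [Nat.succ_eq_add_one]
      omega
    rw [h2] at h
    have h3 : 4 * (((2 * m + 1).choose m) ^ 2 * (2 * m + 1)) ≤ 4 * (2 ^ (2 * m + 1)) ^ 2 := by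
      calc 4 * (((2 * m + 1).choose m) ^ 2 * (2 * m + 1))
          = (2 * (2 * m + 1).choose m) ^ 2 * (2 * m + 1) := by ring
        _ ≤ (2 * (2 * m + 1).choose m) ^ 2 * (3 * (m + 1) + 1) :=
            Nat.mul_le_mul_left _ (by omega)
        _ ≤ 16 ^ (m + 1) := h
        _ = 4 * (2 ^ (2 * m + 1)) ^ 2 := by
            rw [← pow_mul, show (16 : ℕ) = 2 ^ 4 by norm_num, ← pow_mul,
              show (4 : ℕ) = 2 ^ 2 by norm_num, ← pow_add]
            congr 1
            ring
    omega

/-! ### Counting subsets with a small sum -/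

theorem count_sum {α : Type} [DecidableEq α] (N : Finset α) (χ : α → ℤ)
    (hχ : ∀ x, χ x = 1 ∨ χ x = -1) (s : ℤ) :
    (N.powerset.filter (fun T => ∑ x ∈ T, χ x = s)).card ≤ N.card.choose (N.card / 2) := by
  set M := N.filter (fun x => χ x = -1) with hM
  set j := (s + (M.card : ℤ)).toNat with hj
  calc (N.powerset.filter (fun T => ∑ x ∈ T, χ x = s)).card
      ≤ (N.powersetCard j).card := by
        refine Finset.card_le_card_of_injOn (fun T => symmDiff T M) ?_ ?_
        · intro T hT
          rw [Finset.mem_coe, Finset.mem_filter, Finset.mem_powerset] at hT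
          obtain ⟨hT1, hT2⟩ := hT
          have hMN : M ⊆ N := Finset.filter_subset _ _
          rw [Finset.mem_coe, Finset.mem_powersetCard]
          refine ⟨?_, ?_⟩
          · intro x hx
            rw [Finset.mem_symmDiff] at hx
            rcases hx with hx | hx
            · exact hT1 hx.1
            · exact hMN hx.1
          · have e1 : ∑ x ∈ T, χ x = ∑ x ∈ T \ M, χ x + ∑ x ∈ T ∩ M, χ x := by
              rw [← Finset.sum_union (Finset.disjoint_sdiff_inter T M),
                Finset.sdiff_union_inter]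
            have e2 : ∑ x ∈ T \ M, χ x = ((T \ M).card : ℤ) := by
              rw [Finset.card_eq_sum_ones, Nat.cast_sum]
              refine Finset.sum_congr rfl fun x hx => ?_
              rw [Finset.mem_sdiff, hM, Finset.mem_filter, not_and] at hx
              rcases hχ x with h | h
              · rw [h]; rfl
              · exact absurd h (hx.2 (hT1 hx.1))
            have e3 : ∑ x ∈ T ∩ M, χ x = -((T ∩ M).card : ℤ) := by
              rw [Finset.card_eq_sum_ones, Nat.cast_sum, ← Finset.sum_neg_distrib]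
              refine Finset.sum_congr rfl fun x hx => ?_
              rw [Finset.mem_inter, hM, Finset.mem_filter] at hx
              rw [hx.2.2]; rfl
            have e4 : (symmDiff T M).card = (T \ M).card + (M \ T).card := by
              rw [symmDiff_def, Finset.sup_eq_union, Finset.card_union_of_disjoint]
              exact disjoint_sdiff_sdiff
            have e5 : (M \ T).card + (M ∩ T).card = M.card := Finset.card_sdiff_add_card_inter M T
            rw [Finset.inter_comm] at e5
            show (symmDiff T M).card = j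
            omega
        · intro T _ U _ h
          exact symmDiff_left_injective M h
    _ = N.card.choose j := Finset.card_powersetCard _ _
    _ ≤ N.card.choose (N.card / 2) := Nat.choose_le_middle _ _

theorem count_abs {α : Type} [DecidableEq α] (N : Finset α) (χ : α → ℤ)
    (hχ : ∀ x, χ x = 1 ∨ χ x = -1) (K : ℕ) :
    (N.powerset.filter (fun T => |∑ x ∈ T, χ x| ≤ K)).card ≤
      (2 * K + 1) * N.card.choose (N.card / 2) := by
  calc (N.powerset.filter (fun T => |∑ x ∈ T, χ x| ≤ K)).card
      ≤ ((Finset.Icc (-(K : ℤ)) K).biUnion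
          (fun s => N.powerset.filter (fun T => ∑ x ∈ T, χ x = s))).card := by
        refine Finset.card_le_card fun T hT => ?_
        rw [Finset.mem_filter] at hT
        rw [Finset.mem_biUnion]
        refine ⟨∑ x ∈ T, χ x, ?_, ?_⟩
        · rw [Finset.mem_Icc]; exact abs_le.1 hT.2
        · rw [Finset.mem_filter]; exact ⟨hT.1, rfl⟩
    _ ≤ ∑ s ∈ Finset.Icc (-(K : ℤ)) K,
          (N.powerset.filter (fun T => ∑ x ∈ T, χ x = s)).card := Finset.card_biUnion_le
    _ ≤ ∑ s ∈ Finset.Icc (-(K : ℤ)) K, N.card.choose (N.card / 2) :=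
        Finset.sum_le_sum fun s _ => count_sum N χ hχ s
    _ = (2 * K + 1) * N.card.choose (N.card / 2) := by
        rw [Finset.sum_const, Int.card_Icc, smul_eq_mul]
        congr 1
        omega

theorem card_sub {n : ℕ} (v : Cube n) : Fintype.card {T : Finset (Cube n) // T ⊆ nbr v} = 2 ^ n := by
  classical
  rw [Fintype.card_subtype]
  have : (univ.filter (fun T : Finset (Cube n) => T ⊆ nbr v)) = (nbr v).powerset := by
    ext T; simp
  rw [this, Finset.card_powerset, card_nbr]

theorem card_fam (n : ℕ) : Nat.card (Fam n) = (2 ^ n) ^ (2 ^ n) := by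
  classical
  rw [Nat.card_eq_fintype_card]
  have : Fintype.card (Fam n) = ∏ v : Cube n, Fintype.card {T : Finset (Cube n) // T ⊆ nbr v} :=
    Fintype.card_pi
  rw [this]
  simp only [card_sub, Finset.prod_const, Finset.card_univ]
  congr 1
  simp [Cube]

theorem count_le (n K : ℕ) : Nat.card {S : Fam n // DiscLE (fun v => (S v).1) K} ≤
    (2 * ((2 * K + 1) * n.choose (n / 2))) ^ (2 ^ n) := by
  classical
  set sg : (Cube n → Bool) → Cube n → ℤ := fun ε x => if ε x then 1 else -1 with hsg
  have hsg1 : ∀ ε x, sg ε x = 1 ∨ sg ε x = -1 := by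
    intro ε x
    simp only [hsg]
    split_ifs
    · exact Or.inl rfl
    · exact Or.inr rfl
  have hcube : Fintype.card (Cube n) = 2 ^ n := by simp [Cube]
  have hone : ∀ ε : Cube n → Bool, (univ.filter (fun S : Fam n =>
      ∀ v, |∑ x ∈ (S v).1, sg ε x| ≤ K)).card ≤ ((2 * K + 1) * n.choose (n / 2)) ^ (2 ^ n) := by
    intro ε
    have h1 : (univ.filter (fun S : Fam n => ∀ v, |∑ x ∈ (S v).1, sg ε x| ≤ K)) =
        Fintype.piFinset (fun v : Cube n => univ.filter
          (fun T : {T : Finset (Cube n) // T ⊆ nbr v} => |∑ x ∈ T.1, sg ε x| ≤ K)) := by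
      ext S
      rw [Finset.mem_filter, Fintype.mem_piFinset]
      simp only [mem_univ, true_and, mem_filter]
    rw [h1, Fintype.card_piFinset]
    calc ∏ v : Cube n, (univ.filter
          (fun T : {T : Finset (Cube n) // T ⊆ nbr v} => |∑ x ∈ T.1, sg ε x| ≤ K)).card
        ≤ ∏ _v : Cube n, ((2 * K + 1) * n.choose (n / 2)) := by
          refine Finset.prod_le_prod' fun v _ => ?_
          have h2 := count_abs (nbr v) (sg ε) (hsg1 ε) K
          rw [card_nbr] at h2
          refine le_trans ?_ h2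
          refine Finset.card_le_card_of_injOn (fun T => T.1) ?_ ?_
          · intro T hT
            rw [Finset.mem_coe, Finset.mem_filter] at hT
            rw [Finset.mem_coe, Finset.mem_filter, Finset.mem_powerset]
            exact ⟨T.2, hT.2⟩
          · intro T _ U _ h
            exact Subtype.ext h
      _ = ((2 * K + 1) * n.choose (n / 2)) ^ (2 ^ n) := by
          rw [Finset.prod_const, Finset.card_univ, hcube]
  rw [Nat.card_eq_fintype_card, Fintype.card_subtype]
  calc (univ.filter (fun S : Fam n => DiscLE (fun v => (S v).1) K)).card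
      ≤ ((univ : Finset (Cube n → Bool)).biUnion (fun ε => univ.filter (fun S : Fam n =>
          ∀ v, |∑ x ∈ (S v).1, sg ε x| ≤ K))).card := by
        refine Finset.card_le_card fun S hS => ?_
        rw [Finset.mem_filter] at hS
        obtain ⟨χ, h1, h2⟩ := hS.2
        rw [Finset.mem_biUnion]
        refine ⟨fun x => decide (χ x = 1), mem_univ _, ?_⟩
        rw [Finset.mem_filter]
        refine ⟨mem_univ _, fun v => ?_⟩
        have h3 : ∑ x ∈ (S v).1, sg (fun x => decide (χ x = 1)) x = ∑ x ∈ (S v).1, χ x := by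
          refine Finset.sum_congr rfl fun x _ => ?_
          simp only [hsg, decide_eq_true_eq]
          rcases h1 x with h | h
          · rw [h]; rfl
          · rw [h]; rfl
        rw [h3]
        exact h2 v
    _ ≤ ∑ ε : Cube n → Bool, (univ.filter (fun S : Fam n =>
          ∀ v, |∑ x ∈ (S v).1, sg ε x| ≤ K)).card := Finset.card_biUnion_le
    _ ≤ ∑ _ε : Cube n → Bool, ((2 * K + 1) * n.choose (n / 2)) ^ (2 ^ n) :=
        Finset.sum_le_sum fun ε _ => hone ε
    _ = (2 * ((2 * K + 1) * n.choose (n / 2))) ^ (2 ^ n) := by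
        rw [Finset.sum_const, Finset.card_univ, smul_eq_mul, Fintype.card_fun, hcube,
          Fintype.card_bool, ← mul_pow]

theorem discLE_mono {n : ℕ} {S : Cube n → Finset (Cube n)} {K L : ℕ} (h : DiscLE S K)
    (hKL : K ≤ L) : DiscLE S L := by
  obtain ⟨χ, h1, h2⟩ := h
  exact ⟨χ, h1, fun v => (h2 v).trans (by exact_mod_cast hKL)⟩

theorem discLE_disc {n : ℕ} (S : Cube n → Finset (Cube n)) : DiscLE S (disc S) := by
  have hne : {K | DiscLE S K}.Nonempty := by
    refine ⟨∑ v, (S v).card, fun _ => 1, fun _ => Or.inl rfl, fun v => ?_⟩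
    rw [Finset.sum_const, nsmul_eq_mul, mul_one, Nat.abs_cast]
    exact_mod_cast Finset.single_le_sum (f := fun v => (S v).card) (fun _ _ => Nat.zero_le _)
      (mem_univ v)
  exact Nat.sInf_mem hne

theorem few (n : ℕ) (hn : 64 ≤ n) :
    2 ^ (2 ^ n) * Nat.card {S : Fam n // ¬ Real.sqrt n / 16 ≤ (disc (fun v => (S v).1) : ℝ)} ≤
      Nat.card (Fam n) := by
  classical
  set K := ⌊Real.sqrt n / 16⌋₊ with hK
  have hs : 8 ≤ Real.sqrt n := by
    have : Real.sqrt 64 ≤ Real.sqrt n := Real.sqrt_le_sqrt (by exact_mod_cast hn)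
    rwa [show (64 : ℝ) = 8 ^ 2 by norm_num, Real.sqrt_sq (by norm_num)] at this
  have hKr : (K : ℝ) ≤ Real.sqrt n / 16 := Nat.floor_le (by positivity)
  have h1 : (4 * (2 * K + 1)) ^ 2 ≤ n := by
    have h2 : ((4 * (2 * K + 1) : ℕ) : ℝ) ≤ Real.sqrt n := by push_cast; linarith
    have h3 : ((4 * (2 * K + 1) : ℕ) : ℝ) ^ 2 ≤ (n : ℝ) := by
      calc ((4 * (2 * K + 1) : ℕ) : ℝ) ^ 2 ≤ Real.sqrt (n : ℝ) ^ 2 := by gcongr
        _ = (n : ℝ) := Real.sq_sqrt (Nat.cast_nonneg _)
    exact_mod_cast h3
  have h4 : 2 * (2 * ((2 * K + 1) * n.choose (n / 2))) ≤ 2 ^ n := by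
    have h5 : (2 * (2 * ((2 * K + 1) * n.choose (n / 2)))) ^ 2 ≤ (2 ^ n) ^ 2 := by
      calc (2 * (2 * ((2 * K + 1) * n.choose (n / 2)))) ^ 2
          = (n.choose (n / 2)) ^ 2 * (4 * (2 * K + 1)) ^ 2 := by ring
        _ ≤ (n.choose (n / 2)) ^ 2 * n := Nat.mul_le_mul_left _ h1
        _ ≤ (2 ^ n) ^ 2 := choose_half n
    exact (Nat.pow_le_pow_iff_left (by norm_num)).1 h5
  have h6 : Nat.card {S : Fam n // ¬ Real.sqrt n / 16 ≤ (disc (fun v => (S v).1) : ℝ)} ≤
      Nat.card {S : Fam n // DiscLE (fun v => (S v).1) K} := by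
    refine Nat.card_le_card_of_injective
      (fun S : {S : Fam n // ¬ Real.sqrt n / 16 ≤ (disc (fun v => (S v).1) : ℝ)} =>
        (⟨S.1, discLE_mono (discLE_disc _) (Nat.le_floor (not_le.1 S.2).le)⟩ :
          {S : Fam n // DiscLE (fun v => (S v).1) K})) ?_
    intro S T h
    have h2 := Subtype.ext_iff.1 h
    exact Subtype.ext h2
  calc 2 ^ (2 ^ n) * Nat.card {S : Fam n // ¬ Real.sqrt n / 16 ≤ (disc (fun v => (S v).1) : ℝ)}
      ≤ 2 ^ (2 ^ n) * (2 * ((2 * K + 1) * n.choose (n / 2))) ^ (2 ^ n) :=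
        Nat.mul_le_mul_left _ (h6.trans (count_le n K))
    _ = (2 * (2 * ((2 * K + 1) * n.choose (n / 2)))) ^ (2 ^ n) := by rw [← mul_pow]
    _ ≤ (2 ^ n) ^ (2 ^ n) := Nat.pow_le_pow_left h4 _
    _ = Nat.card (Fam n) := (card_fam n).symm

theorem prob_compl (n : ℕ) (P : ℕ → Prop) : prob n P = 1 - prob n (fun d => ¬ P d) := by
  classical
  have h0 : (0 : ℝ) < Nat.card (Fam n) := by
    rw [card_fam]; positivity
  unfold prob
  rw [eq_sub_iff_add_eq, ← add_div, div_eq_one_iff_eq h0.ne']
  rw [Nat.card_eq_fintype_card, Nat.card_eq_fintype_card, Nat.card_eq_fintype_card,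
    Fintype.card_subtype_compl]
  have := Fintype.card_subtype_le (fun S : Fam n => P (disc (fun v => (S v).1)))
  push_cast [this]
  ring

/-- **The discrepancy of random subsets of the neighbourhoods in the hypercube is of order `√n`.** -/
theorem result : ∃ C : ℝ, 0 < C ∧
    (∀ (n : ℕ) (S : Cube n → Finset (Cube n)), (∀ v, S v ⊆ nbr v) →
      (disc S : ℝ) ≤ C * Real.sqrt n) ∧
    (∀ n : ℕ, 64 ≤ n → 1 - 1 / 2 ^ (2 ^ n) ≤ prob n (fun d => Real.sqrt n / 16 ≤ d)) ∧
    Filter.Tendsto (fun n => prob n (fun d => Real.sqrt n / 16 ≤ d ∧ (d : ℝ) ≤ C * Real.sqrt n))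
      Filter.atTop (nhds 1) := by
  obtain ⟨C, hC, hup⟩ := upper
  have hlow : ∀ n : ℕ, 64 ≤ n → 1 - 1 / 2 ^ (2 ^ n) ≤ prob n (fun d => Real.sqrt n / 16 ≤ d) := by
    intro n hn
    rw [prob_compl]
    have h0 : (0 : ℝ) < Nat.card (Fam n) := by
      rw [card_fam]; positivity
    have h1 : prob n (fun d => ¬ Real.sqrt n / 16 ≤ (d : ℝ)) ≤ 1 / 2 ^ (2 ^ n) := by
      unfold prob
      rw [div_le_div_iff₀ h0 (by positivity), one_mul, mul_comm]
      exact_mod_cast few n hn
    linarith
  refine ⟨C, hC, hup, hlow, ?_⟩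
  have heq : ∀ n, prob n (fun d => Real.sqrt n / 16 ≤ d ∧ (d : ℝ) ≤ C * Real.sqrt n) =
      prob n (fun d => Real.sqrt n / 16 ≤ d) := by
    intro n
    unfold prob
    congr 2
    refine Nat.card_congr (Equiv.subtypeEquivRight fun S => ?_)
    exact ⟨fun h => h.1, fun h => ⟨h, hup n _ fun v => (S v).2⟩⟩
  simp only [heq]
  have hle : ∀ n, prob n (fun d => Real.sqrt n / 16 ≤ d) ≤ 1 := by
    intro n
    rw [prob_compl]
    have : 0 ≤ prob n (fun d => ¬ Real.sqrt n / 16 ≤ (d : ℝ)) := by unfold prob; positivity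
    linarith
  have h3 : Filter.Tendsto (fun n : ℕ => (1 : ℝ) - 1 / 2 ^ (2 ^ n)) Filter.atTop (nhds 1) := by
    have h4 : Filter.Tendsto (fun n : ℕ => (1 : ℝ) / 2 ^ (2 ^ n)) Filter.atTop (nhds 0) := by
      have h5 : Filter.Tendsto (fun n : ℕ => ((1 / 2 : ℝ)) ^ n) Filter.atTop (nhds 0) :=
        tendsto_pow_atTop_nhds_zero_of_lt_one (by norm_num) (by norm_num)
      refine squeeze_zero (fun n => by positivity) (fun n => ?_) h5
      rw [one_div_pow]
      refine one_div_le_one_div_of_le (by positivity) ?_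
      exact pow_le_pow_right₀ (by norm_num) (Nat.lt_two_pow_self).le
    simpa using h4.const_sub 1
  exact tendsto_of_tendsto_of_tendsto_of_le_of_le' h3 tendsto_const_nhds
    (Filter.eventually_atTop.2 ⟨64, fun n hn => hlow n hn⟩) (Filter.Eventually.of_forall hle)

end Pool.Agent.Results.MP_3166d6_co.SqrtOrder
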